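import Pool.Agent.Lib.MP_dc7e63_lc.Main

namespace Pool.Agent.Results.MP_dc7e63_lc.GlobalNoConstantFactor

open Pool.Agent.Lib.MP_dc7e63_lc

/-- If Densest-k-Subgraph is hard to approximate within every constant factor, or if the Small-Set
Expansion Hypothesis holds and P ≠ NP, then GlobalECC has no constant-factor single-criteria
approximation, neither in general (`D = Set.univ`) nor for the instances with two colors. -/
theorem result (h : DenseSubgraphHard ∨ (SSEHypothesis ∧ PNeNP)) (D : Set Instance)
    (hD : twoColors ⊆ D) : ¬ HasConstantFactor D GlobalFeasible :=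
  no_approx (fun _ S hI => global_iff_core hI S) h hD

end Pool.Agent.Results.MP_dc7e63_lc.GlobalNoConstantFactor
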